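import Pool.Agent.Helper37.CP.Fin

/-!
# MP_abe552_co: generic radii for plane Laman graphs with at most two long faces

Let `G` be a plane graph (given by a rotation system `R`), generically rigid in the plane, with `m = 2 n - 3` edges, all of
whose faces, with at most two exceptions, have length at most four. Then `G` has a packing all of whose `n = 3 n - m - 3`
radii are algebraically independent over the rationals.
-/

namespace Pool.Agent.Results.MP_abe552_co.AtMostTwoLongFaces

theorem result {V : Type*} [Fintype V] {G : SimpleGraph V} (R : CPG.Rotation G) (hR : R.IsPlane)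
    (hr : CPG.GenericallyRigid G) (hm : Nat.card G.edgeSet + 3 = 2 * Nat.card V)
    (hd : ∃ d₁ d₂ : G.Dart, ∀ d, 4 < R.faceLength d → R.face.SameCycle d₁ d ∨ R.face.SameCycle d₂ d) :
    ∃ (p : V → ℂ) (r : V → ℝ), CPG.IsPacking R p r ∧ AlgebraicIndependent ℚ r :=
  Pool.Agent.Helper37.CP.generic_packing R hR hr (by rw [hm, Nat.card_eq_fintype_card]) hd

end Pool.Agent.Results.MP_abe552_co.AtMostTwoLongFaces
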